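import Pool.Agent.Helper82.M2.Loc

/-!
# The placement with the defect bound given by the circumradius

If `K` lies in no ball of radius `R ≥ 0.6026` and `1/4 + 1/(4(2+X)) ≤ R²`, then the four near points
have edge defects of (unordered) sum at most `X`, and all violations are at most `2X/(2-5.5X)`.
`loc_of_coreX`: local theorem from the core statement with this information.
-/

set_option autoImplicit false

namespace Helper82.M2

open Set Metric Finset MeasureTheory Filter Helper80.CW Helper82.CW Helper14.CW Helper93.MEI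
open Pool.Agent.Helper73.MEI Helper13.PLM Helper66.MEI
open scoped RealInnerProductSpace Topology

variable {K : Set E3}

/-- four points from the circumradius -/
theorem near_sum_R (hK : IsCompact K) (hw : Width1 K) {R X : ℝ} (hR : 0.6026 ≤ R)
    (hX : 0 ≤ X) (hX1 : X ≤ 1) (hRX : 1 / 4 + 1 / (4 * (2 + X)) ≤ R ^ 2)
    (hno : ¬ ∃ x0, K ⊆ Metric.closedBall x0 R) :
    ∃ c : Fin 4 → E3, (∀ i, c i ∈ K) ∧
      ∑ i, ∑ j, (if i = j then 0 else 1 - ‖c i - c j‖ ^ 2) ≤ 2 * X := by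
  have hR1 : (1 : ℝ) / 3 ≤ R ^ 2 := by nlinarith
  obtain ⟨p, hp, l, hl0, hl1, hl⟩ := Pool.Agent.Helper73.PL.jung_four K (diam_le hK hw)
    (ρ := R) (by linarith) (by linarith) hno
  refine ⟨p, hp, ?_⟩
  by_contra hcon
  push Not at hcon
  have h1 := Pool.Agent.Helper73.PL.simplex_total l hl0 hl1 (fun i j => 1 - ‖p i - p j‖ ^ 2)
    (fun i j _ => by
    have h1 := diam_le hK hw _ (hp i) _ (hp j)
    rw [dist_eq_norm] at h1
    have h2 := norm_nonneg (p i - p j)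
    show (0 : ℝ) ≤ 1 - ‖p i - p j‖ ^ 2
    nlinarith) (X := X) hX hX1 hcon.le
  have h2 : ∑ i, ∑ j, l i * l j * (if i = j then 0 else 1 - (1 - ‖p i - p j‖ ^ 2)) =
      ∑ i, ∑ j, l i * l j * ‖p i - p j‖ ^ 2 := by
    refine Finset.sum_congr rfl (fun i _ => Finset.sum_congr rfl (fun j _ => ?_))
    by_cases h : i = j
    · simp [h]
    · rw [if_neg h]; ring
  rw [h2] at h1
  linarith

/-- placement for given near points -/
theorem placement_of (hK : IsCompact K) (hw : Width1 K) {c : Fin 4 → E3} (hcK : ∀ i, c i ∈ K)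
    (hsum : ∑ i, ∑ j, (if i = j then 0 else 1 - ‖c i - c j‖ ^ 2) ≤ 0.42) :
    ∃ b : Fin 4 → E3, Near K b c := by
  obtain ⟨a, u, s, ho, hd, hc, hs, hs3⟩ := Helper33.MEI.frame c (fun i j => by
    rw [← dist_eq_norm]
    exact diam_le hK hw _ (hcK i) _ (hcK j)) hsum
  have hG := gram_of_inner ho hd
  have hs2 : ∀ k, s k ≤ 1.0513 := fun k => (hs k).2
  rw [Fin.sum_univ_three] at hs3
  obtain ⟨b, h1, h2, h3⟩ := place_core2 hK hw hG hcK (frame_H1 hG hc) (by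
    intro w
    have hpar : ⟪w, u 0⟫ ^ 2 + ⟪w, u 1⟫ ^ 2 + ⟪w, u 2⟫ ^ 2 = (⟪w, w⟫ : ℝ) := by
      have h1 := u.sum_sq_norm_inner_right w
      rw [Fin.sum_univ_three, real_inner_self_eq_norm_sq] at *
      simp only [Real.norm_eq_abs, sq_abs] at h1
      rw [← h1, real_inner_comm w (u 0), real_inner_comm w (u 1), real_inner_comm w (u 2)]
    rw [frame_Q hG u hc, Fin.sum_univ_three]
    have q0 := sq_nonneg (⟪w, u 0⟫ : ℝ)
    have q1 := sq_nonneg (⟪w, u 1⟫ : ℝ)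
    have q2 := sq_nonneg (⟪w, u 2⟫ : ℝ)
    rw [← hpar]
    nlinarith [mul_nonneg q0 (by linarith [hs2 0] : (0 : ℝ) ≤ s 0 + s 1 + s 2 - s 0 - 1.8857),
      mul_nonneg q1 (by linarith [hs2 1] : (0 : ℝ) ≤ s 0 + s 1 + s 2 - s 1 - 1.8857),
      mul_nonneg q2 (by linarith [hs2 2] : (0 : ℝ) ≤ s 0 + s 1 + s 2 - s 2 - 1.8857)]) (by
    rw [frame_G hG (fun k => u.norm_eq_one k) hc, Fin.sum_univ_three]
    linarith)
  have h4 : ∀ x ∈ K, ∀ i j, i ≠ j → ⟪x, b i - b j⟫ ≤ ⟪b i, b i - b j⟫ := by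
    intro x hx i j hij
    have := supp_ge hK hw.nonempty (b i - b j) hx
    rwa [h2 i j hij] at this
  refine ⟨b, h1, hcK, h2, h4, ?_, h3, hsum⟩
  intro i j
  by_cases hij : i = j
  · subst hij; simp
  · rw [inner_sub_left]
    have := h4 _ (hcK i) i j hij
    linarith

/-- **placement from the circumradius** -/
theorem exists_nearR (hK : IsCompact K) (hw : Width1 K) {R X : ℝ} (hR : 0.6026 ≤ R)
    (hX : 0 ≤ X) (hX1 : X ≤ 0.21) (hRX : 1 / 4 + 1 / (4 * (2 + X)) ≤ R ^ 2)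
    (hno : ¬ ∃ x0, K ⊆ Metric.closedBall x0 R) :
    ∃ a c : Fin 4 → E3, Near K a c ∧
      ∑ i, ∑ j, (if i = j then 0 else 1 - ‖c i - c j‖ ^ 2) ≤ 2 * X := by
  obtain ⟨c, hcK, hsum⟩ := near_sum_R hK hw hR hX (by linarith) hRX hno
  obtain ⟨b, hb⟩ := placement_of hK hw hcK (hsum.trans (by linarith))
  exact ⟨b, c, hb, hsum⟩

/-- sum of the six squared distances of four vectors -/
theorem six_le (x : Fin 4 → E3) : ‖x 0 - x 1‖ ^ 2 + ‖x 0 - x 2‖ ^ 2 + ‖x 0 - x 3‖ ^ 2 +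
    ‖x 1 - x 2‖ ^ 2 + ‖x 1 - x 3‖ ^ 2 + ‖x 2 - x 3‖ ^ 2 ≤
      4 * (‖x 0‖ ^ 2 + ‖x 1‖ ^ 2 + ‖x 2‖ ^ 2 + ‖x 3‖ ^ 2) := by
  have h : ‖x 0 - x 1‖ ^ 2 + ‖x 0 - x 2‖ ^ 2 + ‖x 0 - x 3‖ ^ 2 +
    ‖x 1 - x 2‖ ^ 2 + ‖x 1 - x 3‖ ^ 2 + ‖x 2 - x 3‖ ^ 2 + ‖x 0 + x 1 + x 2 + x 3‖ ^ 2 =
      4 * (‖x 0‖ ^ 2 + ‖x 1‖ ^ 2 + ‖x 2‖ ^ 2 + ‖x 3‖ ^ 2) := by
    simp only [← real_inner_self_eq_norm_sq, inner_sub_left, inner_sub_right, inner_add_left,
      inner_add_right]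
    rw [real_inner_comm (x 0) (x 1), real_inner_comm (x 0) (x 2), real_inner_comm (x 0) (x 3),
      real_inner_comm (x 1) (x 2), real_inner_comm (x 1) (x 3), real_inner_comm (x 2) (x 3)]
    ring
  have := sq_nonneg ‖x 0 + x 1 + x 2 + x 3‖
  linarith

/-- the sum of the depths in terms of the defect bound -/
theorem sum_al_le {a c : Fin 4 → E3} (N : Near K a c) {X : ℝ}
    (he : ∑ i, ∑ j, (if i = j then 0 else 1 - ‖c i - c j‖ ^ 2) ≤ 2 * X) :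
    2 * ∑ i, ∑ j, ⟪a i - c i, a i - a j⟫ ≤
      X + 6 * (∑ i, ∑ j, ⟪a i - c i, a i - a j⟫) ^ 2 := by
  have hb : 2 * ∑ i, ∑ j, ⟪a i - c i, a i - a j⟫ ≤ X +
    (‖(a 0 - c 0) - (a 1 - c 1)‖ ^ 2 + ‖(a 0 - c 0) - (a 2 - c 2)‖ ^ 2 +
      ‖(a 0 - c 0) - (a 3 - c 3)‖ ^ 2 + ‖(a 1 - c 1) - (a 2 - c 2)‖ ^ 2 +
      ‖(a 1 - c 1) - (a 3 - c 3)‖ ^ 2 + ‖(a 2 - c 2) - (a 3 - c 3)‖ ^ 2) := by
    have h := he
    rw [offdiag (fun i j => 1 - ‖c i - c j‖ ^ 2) (fun i j => by rw [norm_sub_rev])] at h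
    rw [N.dist_c (i := 0) (j := 1) (by decide), N.dist_c (i := 0) (j := 2) (by decide),
      N.dist_c (i := 0) (j := 3) (by decide), N.dist_c (i := 1) (j := 2) (by decide),
      N.dist_c (i := 1) (j := 3) (by decide), N.dist_c (i := 2) (j := 3) (by decide)] at h
    simp only [Fin.sum_univ_four, sub_self, inner_zero_right]
    linarith
  have h6 := six_le (fun i => a i - c i)
  set A : Fin 4 → ℝ := fun i => ∑ j, ⟪a i - c i, a i - a j⟫ with hA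
  have hA0 : ∀ i, 0 ≤ A i := fun i => Finset.sum_nonneg fun j _ => N.nonneg i j
  have hn : ∀ i, ‖a i - c i‖ ^ 2 ≤ 1.5 * A i ^ 2 := by
    intro i
    have h1 := norm_sq_depth N.placed.gram i (c i)
    have h2 : ∑ j, ⟪a i - c i, a i - a j⟫ ^ 2 ≤ (∑ j, ⟪a i - c i, a i - a j⟫) ^ 2 :=
      Finset.sum_sq_le_sq_sum_of_nonneg fun j _ => N.nonneg i j
    show ‖a i - c i‖ ^ 2 ≤ 1.5 * (∑ j, ⟪a i - c i, a i - a j⟫) ^ 2
    rw [h1]
    linarith
  have hs : ∑ i, A i = A 0 + A 1 + A 2 + A 3 := Fin.sum_univ_four _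
  show 2 * ∑ i, A i ≤ X + 6 * (∑ i, A i) ^ 2
  have hb' : 2 * ∑ i, A i ≤ X +
    (‖(a 0 - c 0) - (a 1 - c 1)‖ ^ 2 + ‖(a 0 - c 0) - (a 2 - c 2)‖ ^ 2 +
      ‖(a 0 - c 0) - (a 3 - c 3)‖ ^ 2 + ‖(a 1 - c 1) - (a 2 - c 2)‖ ^ 2 +
      ‖(a 1 - c 1) - (a 3 - c 3)‖ ^ 2 + ‖(a 2 - c 2) - (a 3 - c 3)‖ ^ 2) := hb
  have h0 := hn 0
  have h1 := hn 1
  have h2 := hn 2
  have h3 := hn 3
  have hsq : A 0 ^ 2 + A 1 ^ 2 + A 2 ^ 2 + A 3 ^ 2 ≤ (A 0 + A 1 + A 2 + A 3) ^ 2 := by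
    have p01 := mul_nonneg (hA0 0) (hA0 1)
    have p02 := mul_nonneg (hA0 0) (hA0 2)
    have p03 := mul_nonneg (hA0 0) (hA0 3)
    have p12 := mul_nonneg (hA0 1) (hA0 2)
    have p13 := mul_nonneg (hA0 1) (hA0 3)
    have p23 := mul_nonneg (hA0 2) (hA0 3)
    nlinarith
  rw [hs] at hb' ⊢
  linarith

/-- **all violations are small** -/
theorem viol_small {σ : Measure (E3 × E3)} {a c : Fin 4 → E3} {S : Fin 4 → ℝ}
    (h : CN K σ a c) (v : Viol K a S) {X : ℝ} (hX : X ≤ 0.21)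
    (he : ∑ i, ∑ j, (if i = j then 0 else 1 - ‖c i - c j‖ ^ 2) ≤ 2 * X) (i : Fin 4) :
    (2 - 5.5 * X) * S i ≤ 2 * X := by
  have h1 := sum_al_le h.near he
  set A : ℝ := ∑ i, ∑ j, ⟪a i - c i, a i - a j⟫ with hA
  have hA0 : 0 ≤ A := Finset.sum_nonneg fun i _ => Finset.sum_nonneg fun j _ => h.near.nonneg i j
  have hA1 : A ≤ 0.1503 := h.near.sum_le
  have h2 : 1.0982 * A ≤ X := by nlinarith
  have hX0 : 0 ≤ X := by nlinarith
  have h3 : (2 - 5.5 * X) * A ≤ X := by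
    have h4 : 6 * A ^ 2 ≤ 5.5 * X * A := by
      have h5 : 6 * A ≤ 5.5 * X := by nlinarith
      nlinarith
    linarith
  have hS : S i ≤ 2 * A := by
    rcases v.att i with h0 | ⟨x, hx, hxS⟩
    · rw [h0]; linarith
    · have h5 := h.near.placed.Qv_le' h.cpt h.w1 hx i
      have h6 : ∑ j, ⟪a i - c i, a i - a j⟫ ≤ A :=
        Finset.single_le_sum (f := fun i => ∑ j, ⟪a i - c i, a i - a j⟫)
          (fun i _ => Finset.sum_nonneg fun j _ => h.near.nonneg i j) (Finset.mem_univ i)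
      have h7 := sq_nonneg ‖a i - c i‖
      rw [← hxS]
      linarith
  have h8 : 0 ≤ 2 - 5.5 * X := by linarith
  have h9 := mul_le_mul_of_nonneg_left hS h8
  linarith

/-- **Core statement with the defect bound `X`** -/
def CoreX (X κ : ℝ) : Prop := ∀ (K : Set E3) (σ : Measure (E3 × E3)), IsFiniteMeasure σ →
  ∀ a c : Fin 4 → E3, CN K σ a c →
    (∑ i, ∑ j, (if i = j then 0 else 1 - ‖c i - c j‖ ^ 2) ≤ 2 * X) →
    ∀ S : Fin 4 → ℝ, Viol K a S → ∀ i, VM + κ * S i ≤ volume.real K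

/-- **The local theorem from the local core statement.** -/
theorem loc_of_coreX {R R' X κ : ℝ} (hκ : 0 < κ) (h60 : 0.6026 ≤ R') (hRR : R' < R)
    (hX : 0 ≤ X) (hX1 : X ≤ 0.21) (hRX : 1 / 4 + 1 / (4 * (2 + X)) ≤ R' ^ 2)
    (hcore : CoreX X κ) {K : Set E3} (hK : IsCompact K) (hc : Convex ℝ K) (hw : Width1 K)
    (hno : ¬ ∃ x, K ⊆ closedBall x R) :
    ENNReal.ofReal Helper96.MEI.VMe ≤ volume K ∧
      (volume K = ENNReal.ofReal Helper96.MEI.VMe ↔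
        ∃ a : Fin 4 → E3, (∀ i j, i ≠ j → dist (a i) (a j) = 1) ∧
        ∃ c : Fin 3 → Bool, K = Helper96.MEI.MB a c) := by
  have h0 : (0 : ℝ) < R' := by linarith
  obtain ⟨h1, h2⟩ := reduce_loc (V := Helper96.MEI.VMe) hκ h0 hRR (by
    intro f hf hp hnf
    have hKc : IsCompact (Helper37.FX.Bd f) := Helper37.FX.Bd_compact hf
    have hcv : Convex ℝ (Helper37.FX.Bd f) := Helper37.FX.Bd_convex f
    have hw1 : Width1 (Helper37.FX.Bd f) := width_Bd hf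
    have hfin : volume (Helper37.FX.Bd f) ≠ ⊤ := hKc.measure_lt_top.ne
    have hno1 : ¬ ∃ x0, Helper37.FX.Bd f ⊆ closedBall x0 0.6026 := by
      rintro ⟨x0, hx0⟩
      exact hnf ⟨x0, hx0.trans (closedBall_subset_closedBall h60)⟩
    obtain ⟨b, c, hN, heX⟩ := exists_nearR hKc hw1 h60 hX hX1 hRX hnf
    obtain ⟨σ, hσ, hpm⟩ := pm_exists hf hp
    obtain ⟨S, hS⟩ := viol_exists hKc hw1.nonempty b
    have hcr := hcore _ σ hσ b c ⟨hpm, hcv, hw1, hno1, hN⟩ heX S hS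
    obtain ⟨i0, -, hi0⟩ := Finset.exists_max_image Finset.univ S ⟨0, Finset.mem_univ _⟩
    refine ⟨b, hN.reg, S i0, hS.nn i0, ?_, ?_⟩
    · intro i q hq
      have h7 := hS.le i q hq
      have h8 := hi0 i (Finset.mem_univ _)
      have h9 : dist q (b i) ^ 2 - 1 = Qv b i q := by
        rw [dist_eq_norm]; rfl
      rw [h9]
      linarith
    · show ENNReal.ofReal (Helper96.MEI.VMe + κ * S i0) ≤ volume (Helper37.FX.Bd f)
      rw [← ENNReal.ofReal_toReal hfin]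
      apply ENNReal.ofReal_le_ofReal
      exact hcr i0) hK hc hw hno
  exact Helper96.MEI.top_of_quant hκ hK hc hw h1 h2

end Helper82.M2
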