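import Pool.Agent.Helper82.M2.Fin6042

/-!
# The form of the hand-in: bodies outside of a window of circumradii, and the shape of the others

`near6042`: a body of width `1` and volume at most `V_M` lies in no ball of radius `0.6042` and has
four points that are nearly the vertices of a regular tetrahedron.
`win_full`: the statement of the hand-in from a core statement.
-/

set_option autoImplicit false

namespace Helper82.M2

open Set Metric Finset MeasureTheory Filter Helper80.CW Helper82.CW Helper14.CW Helper93.MEI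
open scoped RealInnerProductSpace Topology

theorem near6042 {K : Set E3} (hcompact : IsCompact K) (hconvex : Convex ℝ K) (hw : Width1 K)
    (hvol : volume K ≤ ENNReal.ofReal Helper96.MEI.VMe) :
    (∀ x : E3, ¬ K ⊆ closedBall x 0.6042) ∧
    ∃ p : Fin 4 → E3, (∀ i, p i ∈ K) ∧
      (∑ i, ∑ j, (if i < j then 1 - dist (p i) (p j) ^ 2 else 0) ≤ 0.1729) ∧
      ∀ i j, i ≠ j → 0.9094 < dist (p i) (p j) := by
  have hno : ∀ x : E3, ¬ K ⊆ closedBall x 0.6042 := fun x hx =>
    absurd hvol (not_le.2 (concl_far2 hcompact hconvex hw hx).1)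
  refine ⟨hno, ?_⟩
  obtain ⟨p, hp, h⟩ := near_sum_R hcompact hw (R := 0.6042) (X := 0.1729)
    (by norm_num) (by norm_num) (by norm_num) (by norm_num) (fun ⟨x, hx⟩ => hno x hx)
  have hle : ∀ i j, 0 ≤ 1 - ‖p i - p j‖ ^ 2 := by
    intro i j
    have h1 := Helper82.CW.diam_le hcompact hw _ (hp i) _ (hp j)
    rw [dist_eq_norm] at h1
    have h2 := norm_nonneg (p i - p j)
    nlinarith
  have hsym : ∀ i j, ‖p i - p j‖ = ‖p j - p i‖ := fun i j => norm_sub_rev _ _
  have hs : ∑ i, ∑ j, (if i < j then 1 - dist (p i) (p j) ^ 2 else 0) ≤ 0.1729 := by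
    simp only [dist_eq_norm]
    have e : ∀ f : Fin 4 → Fin 4 → ℝ, (∀ i j, f i j = f j i) →
        ∑ i, ∑ j, (if i = j then 0 else f i j) = 2 * ∑ i, ∑ j, (if i < j then f i j else 0) := by
      intro f hf
      have h1 : ∀ i j : Fin 4, (if i = j then 0 else f i j) =
          (if i < j then f i j else 0) + (if j < i then f j i else 0) := by
        intro i j
        rcases lt_trichotomy i j with hij | hij | hij
        · rw [if_neg hij.ne, if_pos hij, if_neg (not_lt.2 hij.le), add_zero]
        · rw [if_pos hij, if_neg (not_lt.2 hij.ge), if_neg (not_lt.2 hij.le), add_zero]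
        · rw [if_neg hij.ne', if_neg (not_lt.2 hij.le), if_pos hij, zero_add, hf]
      simp only [h1, Finset.sum_add_distrib]
      rw [Finset.sum_comm (f := fun i j => if j < i then f j i else 0)]
      ring
    rw [e (fun i j => 1 - ‖p i - p j‖ ^ 2) (fun i j => by rw [hsym i j])] at h
    linarith
  refine ⟨p, hp, hs, ?_⟩
  have key : ∀ i j, i < j → 1 - dist (p i) (p j) ^ 2 ≤ 0.1729 := by
    intro i j hij
    refine le_trans ?_ hs
    have hn : ∀ a b : Fin 4, 0 ≤ (if a < b then 1 - dist (p a) (p b) ^ 2 else 0) := by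
      intro a b
      split_ifs
      · rw [dist_eq_norm]; exact hle a b
      · exact le_rfl
    have h1 := Finset.single_le_sum (f := fun b => if i < b then 1 - dist (p i) (p b) ^ 2 else 0)
      (fun b _ => hn i b) (Finset.mem_univ j)
    have h2 := Finset.single_le_sum
      (f := fun a => ∑ b, (if a < b then 1 - dist (p a) (p b) ^ 2 else 0))
      (fun a _ => Finset.sum_nonneg fun b _ => hn a b) (Finset.mem_univ i)
    simp only [hij, if_true] at h1
    exact h1.trans h2
  have key2 : ∀ i j, i < j → 0.9094 < dist (p i) (p j) := by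
    intro i j hij
    have h1 := key i j hij
    have h2 : (0 : ℝ) ≤ dist (p i) (p j) := dist_nonneg
    by_contra hcon
    push Not at hcon
    nlinarith
  intro i j hij
  rcases lt_or_gt_of_ne hij with h1 | h1
  · exact key2 i j h1
  · rw [dist_comm]; exact key2 j i h1

/-- the statement of the hand-in from a core statement -/
theorem win_full {R R' X κ : ℝ} (hκ : 0 < κ) (h60 : 0.6026 ≤ R') (hRR : R' < R)
    (hX : 0 ≤ X) (hX1 : X ≤ 0.21) (hRX : 1 / 4 + 1 / (4 * (2 + X)) ≤ R' ^ 2)
    (hcore : CoreX X κ) {K : Set E3} (hK : IsCompact K) (hc : Convex ℝ K) (hw : Width1 K) :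
    (((∃ x, K ⊆ closedBall x 0.6042) ∨ ¬ ∃ x, K ⊆ closedBall x R) →
      ENNReal.ofReal Helper96.MEI.VMe ≤ volume K ∧
      (volume K = ENNReal.ofReal Helper96.MEI.VMe ↔
        ∃ a : Fin 4 → E3, (∀ i j, i ≠ j → dist (a i) (a j) = 1) ∧
        ∃ c : Fin 3 → Bool, K = Helper96.MEI.MB a c)) ∧
    (volume K ≤ ENNReal.ofReal Helper96.MEI.VMe →
      (∀ x : E3, ¬ K ⊆ closedBall x 0.6042) ∧
      ∃ p : Fin 4 → E3, (∀ i, p i ∈ K) ∧
        (∑ i, ∑ j, (if i < j then 1 - dist (p i) (p j) ^ 2 else 0) ≤ 0.1729) ∧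
        ∀ i j, i ≠ j → 0.9094 < dist (p i) (p j)) :=
  ⟨fun h => window hκ h60 hRR hX hX1 hRX hcore hK hc hw h, near6042 hK hc hw⟩

end Helper82.M2
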