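import Pool.Agent.Helper82.M2.Core
import Pool.Agent.Helper13.PLM.Ap1

/-!
# The core statement, second form

As `Core.lean`, with the sharper placement (`Near`: sum of depths at most `0.1503`, sum of the
edge defects at most `0.42`) and with the hypothesis that the body lies in no ball of radius
`0.6026`.
-/

set_option autoImplicit false

namespace Helper82.M2

open Set Metric Finset MeasureTheory Helper80.CW Helper82.CW Helper14.CW Helper93.MEI
open Pool.Agent.Helper73.MEI Helper13.PLM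
open scoped RealInnerProductSpace

/-- the data of the core statement, sharper placement -/
structure CN (K : Set E3) (σ : Measure (E3 × E3)) (a c : Fin 4 → E3) : Prop where
  pm : PM K σ
  cvx : Convex ℝ K
  w1 : Width1 K
  no : ¬ ∃ x0, K ⊆ Metric.closedBall x0 0.6026
  near : Near K a c

namespace CN

variable {K : Set E3} {σ : Measure (E3 × E3)} {a c : Fin 4 → E3}

theorem ha (h : CN K σ a c) : ∀ i j, i ≠ j → dist (a i) (a j) = 1 := h.near.reg

theorem hp (h : CN K σ a c) : ∀ x ∈ K, Pl a x := h.near.pl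

theorem cpt (h : CN K σ a c) : IsCompact K := h.pm.cpt

theorem ne (h : CN K σ a c) : K.Nonempty := ⟨c 0, h.near.mem 0⟩

theorem hull (h : CN K σ a c) : ∀ p, (∀ q ∈ K, ‖p - q‖ ≤ 1) → p ∈ K := by
  intro p hp
  refine Helper96.MEI.mem_of_dist h.cpt h.cvx h.w1 ?_
  intro q hq
  rw [dist_eq_norm, norm_sub_rev]
  exact hp q hq

theorem hd (h : CN K σ a c) : ∀ x ∈ K, ∀ y ∈ K, ‖x - y‖ ≤ 1 := by
  intro x hx y hy
  rw [← dist_eq_norm]
  exact diam_le h.cpt h.w1 x hx y hy

theorem hz [IsFiniteMeasure σ] (h : CN K σ a c) :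
    ∀ᵐ z ∂σ, Pl a z.1 ∧ ∀ k, bar a k z.1 ≠ 0 :=
  h.pm.hz h.cvx h.w1 h.ha h.hp

theorem ap (h : CN K σ a c) {x : E3} (hx : x ∈ K) (i : Fin 4) : Qv a i x ≤ 3 / 16 :=
  (h.near.ap h.cpt h.w1 hx i).le

theorem perm (h : CN K σ a c) (τ : Equiv.Perm (Fin 4)) :
    CN K σ (fun i => a (τ i)) (fun i => c (τ i)) :=
  ⟨h.pm, h.cvx, h.w1, h.no, h.near.perm τ⟩

end CN

/-- the violation is at most `3 / 16` -/
theorem Viol.le_ap {K : Set E3} {σ : Measure (E3 × E3)} {a c : Fin 4 → E3} {S : Fin 4 → ℝ}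
    (v : Viol K a S) (h : CN K σ a c) (i : Fin 4) : S i ≤ 3 / 16 := by
  rcases v.att i with h0 | ⟨x, hx, h1⟩
  · rw [h0]; norm_num
  · rw [← h1]; exact h.ap hx i

/-- **The core statement, second form** -/
def Core2 : Prop := ∀ (K : Set E3) (σ : Measure (E3 × E3)), IsFiniteMeasure σ →
  ∀ a c : Fin 4 → E3, CN K σ a c → ∀ S : Fin 4 → ℝ, Viol K a S →
    ∀ i, VM + 2e-5 * S i ≤ volume.real K

/-- **the theorem from the core statement** -/
theorem concl_of_core2 (hcore : Core2) : Helper96.MEI.Concl := by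
  refine Helper96.MEI.concl_of_core' (κ := 2e-5) (by norm_num) ?_
  intro f hf hp
  have hKc : IsCompact (Helper37.FX.Bd f) := Helper37.FX.Bd_compact hf
  have hcv : Convex ℝ (Helper37.FX.Bd f) := Helper37.FX.Bd_convex f
  have hw : Width1 (Helper37.FX.Bd f) := width_Bd hf
  have hfin : volume (Helper37.FX.Bd f) ≠ ⊤ := hKc.measure_lt_top.ne
  have hVe : Helper96.MEI.VMe = VM := rfl
  have hVM := Pool.Agent.Helper95.MEI.Cst.VM_bd
  by_cases hvol : volume (Helper37.FX.Bd f) ≤ ENNReal.ofReal 0.41995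
  · have hno : ¬ ∃ x0, Helper37.FX.Bd f ⊆ Metric.closedBall x0 0.6026 := by
      rintro ⟨x0, hx0⟩
      have h2 := volume_circum hKc hcv hw (by norm_num) hx0
      have h3 := (h2.trans hvol)
      rw [ENNReal.ofReal_le_ofReal_iff'] at h3
      have h4 := thr
      rcases h3 with h3 | h3 <;> linarith
    obtain ⟨b, c, hN⟩ := exists_near hKc hw hno
    obtain ⟨σ, hσ, hpm⟩ := pm_exists hf hp
    have hcd : CN (Helper37.FX.Bd f) σ b c := ⟨hpm, hcv, hw, hno, hN⟩
    obtain ⟨S, hS⟩ := viol_exists hKc hw.nonempty b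
    have hc := hcore _ σ hσ b c hcd S hS
    obtain ⟨i0, -, hi0⟩ := Finset.exists_max_image Finset.univ S ⟨0, Finset.mem_univ _⟩
    refine ⟨b, hN.reg, S i0, hS.nn i0, ?_, ?_⟩
    · intro i q hq
      have h7 := hS.le i q hq
      have h8 := hi0 i (Finset.mem_univ _)
      have h9 : dist q (b i) ^ 2 - 1 = Qv b i q := by
        rw [dist_eq_norm]; rfl
      rw [h9]
      linarith
    · show ENNReal.ofReal (Helper96.MEI.VMe + 2e-5 * S i0) ≤ volume (Helper37.FX.Bd f)
      rw [← ENNReal.ofReal_toReal hfin]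
      apply ENNReal.ofReal_le_ofReal
      rw [hVe]
      exact hc i0
  · push Not at hvol
    refine Helper96.MEI.core_of_surplus (δ := 4e-5) (by norm_num) hKc hw ?_
    refine le_trans (ENNReal.ofReal_le_ofReal ?_) hvol.le
    rw [hVe]
    have h1 := hVM.2
    have h2 : Pool.Agent.Helper95.MEI.Cst.VM = VM := rfl
    rw [h2] at h1
    norm_num at h1 ⊢
    linarith

end Helper82.M2
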