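import Pool.Agent.Helper82.M2.Place
import Pool.Agent.Helper73.MEI.StarS
import Pool.Agent.Helper96.MEI.Fin
import Pool.Agent.Helper95.MEI.C8

/-!
# The core statement and the theorem

`Core`: the inequality with a positive multiple of the largest violation, for a body with a pair
measure in placed position near a regular tetrahedron. `concl_of_core_stmt`: the core gives the
theorem for all bodies of constant width one, with the case of equality.
-/

set_option autoImplicit false

namespace Helper82.M2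

open Set Metric Finset MeasureTheory Helper80.CW Helper82.CW Helper14.CW Helper93.MEI
open Pool.Agent.Helper73.MEI
open scoped RealInnerProductSpace

/-- the data of the core statement: body, pair measure, placed tetrahedron, four near points -/
structure CD (K : Set E3) (σ : Measure (E3 × E3)) (a c : Fin 4 → E3) : Prop where
  pm : PM K σ
  cvx : Convex ℝ K
  w1 : Width1 K
  ha : ∀ i j, i ≠ j → dist (a i) (a j) = 1
  pl : ∀ x ∈ K, Pl a x
  cK : ∀ i, c i ∈ K
  su : ∀ i j, i ≠ j → supp K (a i - a j) = ⟪a i, a i - a j⟫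
  al0 : ∀ i j, 0 ≤ ⟪a i - c i, a i - a j⟫
  al : ∑ i, ∑ j, ⟪a i - c i, a i - a j⟫ ≤ 0.1535

/-- `S i` is the largest violation of `|x - a i| ≤ 1` on `K` (or zero) -/
structure Viol (K : Set E3) (a : Fin 4 → E3) (S : Fin 4 → ℝ) : Prop where
  nn : ∀ i, 0 ≤ S i
  le : ∀ i, ∀ x ∈ K, Qv a i x ≤ S i
  att : ∀ i, S i = 0 ∨ ∃ x ∈ K, Qv a i x = S i

theorem viol_exists {K : Set E3} (hK : IsCompact K) (hne : K.Nonempty) (a : Fin 4 → E3) :
    ∃ S, Viol K a S := by
  have hcont : ∀ i, Continuous (fun x => Qv a i x) := fun i => by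
    unfold Qv
    fun_prop
  choose y hy hmax using fun i => hK.exists_isMaxOn hne (hcont i).continuousOn
  refine ⟨fun i => max 0 (Qv a i (y i)), ⟨fun i => le_max_left _ _, ?_, ?_⟩⟩
  · intro i x hx
    exact le_max_of_le_right (hmax i hx)
  · intro i
    rcases le_total (Qv a i (y i)) 0 with h | h
    · left; exact max_eq_left h
    · right; exact ⟨y i, hy i, (max_eq_right h).symm⟩

/-- **The core statement** -/
def Core : Prop := ∀ (K : Set E3) (σ : Measure (E3 × E3)), IsFiniteMeasure σ →
  ∀ a c : Fin 4 → E3, CD K σ a c → ∀ S : Fin 4 → ℝ, Viol K a S →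
    ∀ i, VM + 2e-5 * S i ≤ volume.real K

/-- width of the smooth bodies -/
theorem width_Bd {f : E3 → ℝ} (h : SSup f 1) : Width1 (Helper37.FX.Bd f) := by
  intro u hu
  have hu0 : u ≠ 0 := by
    rintro rfl
    simp at hu
  have hself := Helper37.FX.gr_self h hu0
  have h1 : IsGreatest ((fun x => ⟪x, u⟫) '' Helper37.FX.Bd f) (f u) := by
    refine ⟨⟨Helper37.FX.gr f u, Helper37.FX.gr_mem h hu0, hself⟩, ?_⟩
    rintro _ ⟨y, hy, rfl⟩
    exact hy u
  have h2 : IsLeast ((fun x => ⟪x, u⟫) '' Helper37.FX.Bd f) (f u - 1) := by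
    refine ⟨⟨Helper37.FX.gr f u - u, Helper37.FX.opp_mem h hu, ?_⟩, ?_⟩
    · simp only [inner_sub_left]
      rw [hself, real_inner_self_eq_norm_sq, hu]
      norm_num
    · rintro _ ⟨y, hy, rfl⟩
      have h3 := hy (-u)
      have h4 := h.width u
      rw [hu] at h4
      rw [inner_neg_right] at h3
      simp only
      linarith
  rw [h1.csSup_eq, h2.csInf_eq]
  ring

/-- **the theorem from the core statement** -/
theorem concl_of_core_stmt (hcore : Core) : Helper96.MEI.Concl := by
  refine Helper96.MEI.concl_of_core' (κ := 2e-5) (by norm_num) ?_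
  intro f hf hp
  have hKc : IsCompact (Helper37.FX.Bd f) := Helper37.FX.Bd_compact hf
  have hcv : Convex ℝ (Helper37.FX.Bd f) := Helper37.FX.Bd_convex f
  have hw : Width1 (Helper37.FX.Bd f) := width_Bd hf
  have hfin : volume (Helper37.FX.Bd f) ≠ ⊤ := hKc.measure_lt_top.ne
  have hVe : Helper96.MEI.VMe = VM := rfl
  have hVM := Pool.Agent.Helper95.MEI.Cst.VM_bd
  by_cases hvol : volume (Helper37.FX.Bd f) ≤ ENNReal.ofReal 0.41995
  · obtain ⟨b, c, h1, h2, h3, h4, h5, h6⟩ := placement' hKc hcv hw hvol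
    obtain ⟨σ, hσ, hpm⟩ := pm_exists hf hp
    have hcd : CD (Helper37.FX.Bd f) σ b c := ⟨hpm, hcv, hw, h1, h4, h2, h3, h5, h6⟩
    obtain ⟨S, hS⟩ := viol_exists hKc hw.nonempty b
    have hc := hcore _ σ hσ b c hcd S hS
    obtain ⟨i0, -, hi0⟩ := Finset.exists_max_image Finset.univ S ⟨0, Finset.mem_univ _⟩
    refine ⟨b, h1, S i0, hS.nn i0, ?_, ?_⟩
    · intro i q hq
      have h7 := hS.le i q hq
      have h8 := hi0 i (Finset.mem_univ _)
      have h9 : dist q (b i) ^ 2 - 1 = Qv b i q := by
        rw [dist_eq_norm]; rfl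
      rw [h9]
      linarith
    · show ENNReal.ofReal (Helper96.MEI.VMe + 2e-5 * S i0) ≤ volume (Helper37.FX.Bd f)
      rw [← ENNReal.ofReal_toReal hfin]
      apply ENNReal.ofReal_le_ofReal
      rw [hVe]
      exact hc i0
  · push Not at hvol
    refine Helper96.MEI.core_of_surplus (δ := 4e-5) (by norm_num) hKc hw ?_
    refine le_trans (ENNReal.ofReal_le_ofReal ?_) hvol.le
    rw [hVe]
    have h1 := hVM.2
    have h2 : Pool.Agent.Helper95.MEI.Cst.VM = VM := rfl
    rw [h2] at h1
    norm_num at h1 ⊢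
    linarith

end Helper82.M2
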