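import Pool.Agent.Helper82.M2.Fin604
import Pool.Agent.Helper80.CW.Far6042

/-!
# Bodies in a ball of radius `0.6042`

`concl_far2`: the conclusion for bodies in a ball of radius `0.6042`.
`concl_of_coreX2`: the whole theorem from `CoreX X κ` with `0.1729 ≤ X ≤ 0.21`.
`window`: the conclusion for bodies outside of a window of circumradii.
-/

set_option autoImplicit false

namespace Helper82.M2

open Set Metric Finset MeasureTheory Filter Helper80.CW Helper82.CW Helper14.CW Helper93.MEI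
open Pool.Agent.Helper73.MEI Helper13.PLM Helper66.MEI
open scoped RealInnerProductSpace Topology

/-- **bodies in a ball of radius `0.6042`** -/
theorem concl_far2 {K : Set E3} (hK : IsCompact K) (hc : Convex ℝ K) (hw : Width1 K) {x0 : E3}
    (hx : K ⊆ closedBall x0 0.6042) :
    ENNReal.ofReal Helper96.MEI.VMe < volume K ∧
      (volume K = ENNReal.ofReal Helper96.MEI.VMe ↔
        ∃ a : Fin 4 → E3, (∀ i j, i ≠ j → dist (a i) (a j) = 1) ∧
        ∃ c : Fin 3 → Bool, K = Helper96.MEI.MB a c) := by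
  have h1 := Helper80.Far6042.volume_far hK hc hw le_rfl hx
  have h2 : ENNReal.ofReal Helper96.MEI.VMe < volume K := by
    refine lt_of_lt_of_le ?_ h1
    rw [ENNReal.ofReal_lt_ofReal_iff (by norm_num)]
    have h3 := Helper73.FARP.vm_lt
    have h4 : Helper96.MEI.VMe = VM := rfl
    rw [h4]
    linarith
  refine ⟨h2, fun h => absurd h h2.ne', ?_⟩
  rintro ⟨a, ha, c, hac⟩
  have h5 : ∀ i, a i ∈ K := fun i => by
    rw [hac]; exact Helper96.MEI.mem_MB ha c i
  exact (Helper96.MEI.class_T_iff hK hc hw h5 ha).2.2 ⟨c, hac⟩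

/-- **The whole theorem from the core statement.** -/
theorem concl_of_coreX2 {X κ : ℝ} (hκ : 0 < κ) (hX : 0.1729 ≤ X) (hX1 : X ≤ 0.21)
    (hcore : CoreX X κ) : Helper96.MEI.Concl := by
  intro K hK hc hw
  by_cases h : ∃ x, K ⊆ closedBall x 0.6042
  · obtain ⟨x, hx⟩ := h
    obtain ⟨h1, h2⟩ := concl_far2 hK hc hw hx
    exact ⟨h1.le, h2⟩
  · refine loc_of_coreX (R := 0.6042) (R' := 0.604199) hκ (by norm_num) (by norm_num)
      (by linarith) hX1 ?_ hcore hK hc hw h
    have h1 : 1 / (4 * (2 + X)) ≤ 1 / (4 * (2 + 0.1729)) :=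
      one_div_le_one_div_of_le (by norm_num) (by linarith)
    norm_num at h1 ⊢
    linarith

/-- the conclusion for all bodies outside of a window of circumradii, from a core statement -/
theorem window {R R' X κ : ℝ} (hκ : 0 < κ) (h60 : 0.6026 ≤ R') (hRR : R' < R)
    (hX : 0 ≤ X) (hX1 : X ≤ 0.21) (hRX : 1 / 4 + 1 / (4 * (2 + X)) ≤ R' ^ 2)
    (hcore : CoreX X κ) {K : Set E3} (hK : IsCompact K) (hc : Convex ℝ K) (hw : Width1 K)
    (h : (∃ x, K ⊆ closedBall x 0.6042) ∨ ¬ ∃ x, K ⊆ closedBall x R) :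
    ENNReal.ofReal Helper96.MEI.VMe ≤ volume K ∧
      (volume K = ENNReal.ofReal Helper96.MEI.VMe ↔
        ∃ a : Fin 4 → E3, (∀ i j, i ≠ j → dist (a i) (a j) = 1) ∧
        ∃ c : Fin 3 → Bool, K = Helper96.MEI.MB a c) := by
  rcases h with ⟨x, hx⟩ | h
  · obtain ⟨h1, h2⟩ := concl_far2 hK hc hw hx
    exact ⟨h1.le, h2⟩
  · exact loc_of_coreX hκ h60 hRR hX hX1 hRX hcore hK hc hw h

end Helper82.M2
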