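import Pool.Agent.Helper82.M2.Core2

/-!
# Local form of the reduction: bodies which lie in no ball of radius `R`

`loc_of_core`: the core statement for the smooth bodies which lie in no ball of radius `R'` gives
the inequality with its equality case for all bodies of constant width one which lie in no ball of
radius `R`, for each `R > R'`.
-/

set_option autoImplicit false

namespace Helper82.M2

open Set Metric Finset MeasureTheory Filter Helper80.CW Helper82.CW Helper14.CW Helper93.MEI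
open Pool.Agent.Helper73.MEI Helper13.PLM
open scoped RealInnerProductSpace Topology

/-- approximation by smooth bodies, with the condition on the circumradius -/
theorem approx_no {K : Set E3} (hK : IsCompact K) (hc : Convex ℝ K) (hw : Width1 K)
    {R R' : ℝ} (hR' : 0 < R') (hRR : R' < R) (hno : ¬ ∃ x, K ⊆ closedBall x R) :
    ∃ x0 ∈ K, ∃ f : ℕ → E3 → ℝ, ∃ l : ℕ → ℝ, ∃ v : ℕ → ENNReal,
      (∀ n, SSup (f n) 1) ∧ (∀ n x, x ≠ 0 → 0 < f n x) ∧ Tendsto l atTop (𝓝 1) ∧
      (∀ n q, q + x0 ∈ K → l n • q ∈ Bd (f n)) ∧ (∀ n, volume (Bd (f n)) ≤ v n) ∧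
      Tendsto v atTop (𝓝 (volume K)) ∧ ∀ n, ¬ ∃ x, Bd (f n) ⊆ closedBall x R' := by
  obtain ⟨x0, hx0, f, l, v, hS, hpos, hl, hmem, hv, hvt⟩ := approx hK hc hw
  have hR : 0 < R := hR'.trans hRR
  have h1 : ∀ᶠ n in atTop, R' / R < l n := by
    apply (tendsto_order.1 hl).1
    rw [div_lt_one hR]
    exact hRR
  obtain ⟨N, hN⟩ := eventually_atTop.1 h1
  have ht : Tendsto (fun n : ℕ => n + N) atTop atTop := tendsto_add_atTop_nat N
  refine ⟨x0, hx0, fun n => f (n + N), fun n => l (n + N), fun n => v (n + N),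
    fun n => hS _, fun n => hpos _, hl.comp ht, fun n => hmem _, fun n => hv _, hvt.comp ht, ?_⟩
  rintro n ⟨x, hx⟩
  apply hno
  have hln := hN (n + N) (Nat.le_add_left _ _)
  have hl0 : 0 < l (n + N) := (div_pos hR' hR).trans hln
  refine ⟨x0 + (l (n + N))⁻¹ • x, ?_⟩
  intro y hy
  have h2 : (y - x0) + x0 ∈ K := by simpa using hy
  have h3 := hx (hmem (n + N) _ h2)
  rw [mem_closedBall, dist_eq_norm] at h3 ⊢
  have h4 : y - (x0 + (l (n + N))⁻¹ • x) = (l (n + N))⁻¹ • (l (n + N) • (y - x0) - x) := by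
    rw [smul_sub, smul_smul, inv_mul_cancel₀ hl0.ne', one_smul]
    abel
  rw [h4, norm_smul, norm_inv, Real.norm_of_nonneg hl0.le, inv_mul_le_iff₀ hl0]
  refine h3.trans ?_
  have h5 := mul_lt_mul_of_pos_right hln hR
  rw [div_mul_cancel₀ _ hR.ne'] at h5
  exact h5.le

/-- quantitative reduction to smooth bodies, local form -/
theorem reduce_loc {V c : ℝ} (hc0 : 0 < c) {R R' : ℝ} (hR' : 0 < R') (hRR : R' < R)
    (h : ∀ f : E3 → ℝ, SSup f 1 → (∀ x, x ≠ 0 → 0 < f x) →
      (¬ ∃ x, Bd f ⊆ closedBall x R') →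
      ∃ a : Fin 4 → E3, (∀ i j, i ≠ j → dist (a i) (a j) = 1) ∧
        ∃ S : ℝ, 0 ≤ S ∧ (∀ i, ∀ q ∈ Bd f, dist q (a i) ^ 2 - 1 ≤ S) ∧
          ENNReal.ofReal (V + c * S) ≤ volume (Bd f))
    {K : Set E3} (hK : IsCompact K) (hc : Convex ℝ K) (hw : Width1 K)
    (hno : ¬ ∃ x, K ⊆ closedBall x R) :
    ENNReal.ofReal V ≤ volume K ∧
    ∃ a : Fin 4 → E3, (∀ i j, i ≠ j → dist (a i) (a j) = 1) ∧
      ∀ i, ∀ q ∈ K, ENNReal.ofReal (V + c * (dist q (a i) ^ 2 - 1)) ≤ volume K := by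
  obtain ⟨x0, hx0, f, l, v, hS, hpos, hl, hmem, hv, hvt, hnn⟩ := approx_no hK hc hw hR' hRR hno
  choose a ha S hS0 hSq hSV using fun n => h (f n) (hS n) (hpos n) (hnn n)
  have hVn : ∀ n, ENNReal.ofReal V ≤ v n := by
    intro n
    refine (ENNReal.ofReal_le_ofReal ?_).trans ((hSV n).trans (hv n))
    have := mul_nonneg hc0.le (hS0 n)
    linarith
  have hq : ∀ n, ∀ i, ∀ q ∈ Bd (f n), ENNReal.ofReal (V + c * (dist q (a n i) ^ 2 - 1)) ≤
      volume (Bd (f n)) := by
    intro n i q hq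
    refine (ENNReal.ofReal_le_ofReal ?_).trans (hSV n)
    have := mul_le_mul_of_nonneg_left (hSq n i q hq) hc0.le
    linarith
  refine ⟨ge_of_tendsto' hvt hVn, ?_⟩
  have hKfin : volume K ≠ ⊤ := hK.measure_lt_top.ne
  -- boundedness of the tetrahedra
  have hbd : ∃ n0, ∀ n, n0 ≤ n → ∀ i, ‖a n i‖ ^ 2 ≤ 1 + ((volume K + 1).toReal - V) / c := by
    have hlt : ∀ᶠ n in atTop, v n < volume K + 1 := by
      apply (tendsto_order.1 hvt).2
      exact ENNReal.lt_add_right hKfin one_ne_zero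
    obtain ⟨n0, hn0⟩ := eventually_atTop.1 hlt
    refine ⟨n0, fun n hn i => ?_⟩
    have h0 : (0 : E3) ∈ Bd (f n) := by
      intro z
      rw [inner_zero_left]
      exact (hS n).nonneg z
    have h1 := (hq n i 0 h0).trans ((hv n).trans (hn0 n hn).le)
    have h2 : V + c * (dist (0 : E3) (a n i) ^ 2 - 1) ≤ (volume K + 1).toReal := by
      rw [← ENNReal.ofReal_le_iff_le_toReal (ENNReal.add_ne_top.2 ⟨hKfin, ENNReal.one_ne_top⟩)]
      exact h1
    rw [dist_zero_left] at h2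
    have h3 : c * (‖a n i‖ ^ 2 - 1) ≤ (volume K + 1).toReal - V := by linarith
    rw [← le_div_iff₀' hc0] at h3
    linarith
  obtain ⟨n0, hn0⟩ := hbd
  set B : ℝ := √(1 + ((volume K + 1).toReal - V) / c) with hB
  have hbd2 : ∀ n, (fun n => a (n + n0)) n ∈ closedBall (0 : Fin 4 → E3) B := by
    intro n
    rw [mem_closedBall_zero_iff, pi_norm_le_iff_of_nonneg (Real.sqrt_nonneg _)]
    intro i
    exact Real.le_sqrt_of_sq_le (hn0 (n + n0) (Nat.le_add_left _ _) i)
  obtain ⟨b, _, φ, hφ, hφt⟩ := (isCompact_closedBall (0 : Fin 4 → E3) B).tendsto_subseq hbd2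
  set ψ : ℕ → ℕ := fun n => φ n + n0 with hψ
  have hψt : Tendsto ψ atTop atTop :=
    tendsto_atTop_mono (fun n => Nat.le_add_right (φ n) n0) hφ.tendsto_atTop
  have hat : Tendsto (fun n => a (ψ n)) atTop (𝓝 b) := hφt
  have hai : ∀ i, Tendsto (fun n => a (ψ n) i) atTop (𝓝 (b i)) := fun i =>
    (continuous_apply i).continuousAt.tendsto.comp hat
  refine ⟨fun i => b i + x0, ?_, ?_⟩
  · intro i j hij
    rw [dist_add_right]
    have h1 : Tendsto (fun n => dist (a (ψ n) i) (a (ψ n) j)) atTop (𝓝 (dist (b i) (b j))) :=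
      (hai i).dist (hai j)
    have h2 : (fun n => dist (a (ψ n) i) (a (ψ n) j)) = fun _ => (1 : ℝ) := by
      funext n
      exact ha (ψ n) i j hij
    rw [h2] at h1
    exact (tendsto_nhds_unique h1 tendsto_const_nhds)
  · intro i q hqK
    have hq0 : (q - x0) + x0 ∈ K := by simpa using hqK
    have h1 : ∀ n, ENNReal.ofReal (V + c * (dist (l (ψ n) • (q - x0)) (a (ψ n) i) ^ 2 - 1)) ≤
        v (ψ n) := fun n => (hq (ψ n) i _ (hmem (ψ n) _ hq0)).trans (hv (ψ n))
    have h2 : Tendsto (fun n => ENNReal.ofReal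
        (V + c * (dist (l (ψ n) • (q - x0)) (a (ψ n) i) ^ 2 - 1))) atTop
        (𝓝 (ENNReal.ofReal (V + c * (dist q (b i + x0) ^ 2 - 1)))) := by
      apply ENNReal.tendsto_ofReal
      have h3 : Tendsto (fun n => l (ψ n) • (q - x0)) atTop (𝓝 (q - x0)) := by
        have := (hl.comp hψt).smul_const (q - x0)
        simpa using this
      have h4 := ((((h3.dist (hai i)).pow 2).sub_const 1).const_mul c).const_add V
      have h5 : dist (q - x0) (b i) = dist q (b i + x0) := by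
        rw [dist_eq_norm, dist_eq_norm]
        congr 1
        abel
      rw [h5] at h4
      exact h4
    exact le_of_tendsto_of_tendsto' h2 (hvt.comp hψt) h1

/-- **Core statement for the bodies which lie in no ball of radius `R'`** -/
def CoreR (R' κ : ℝ) : Prop := ∀ (K : Set E3) (σ : Measure (E3 × E3)), IsFiniteMeasure σ →
  ∀ a c : Fin 4 → E3, CN K σ a c → (¬ ∃ x, K ⊆ closedBall x R') →
    ∀ S : Fin 4 → ℝ, Viol K a S → ∀ i, VM + κ * S i ≤ volume.real K

/-- **The local theorem from the local core statement.** -/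
theorem loc_of_core {R R' κ : ℝ} (hκ : 0 < κ) (h60 : 0.6026 ≤ R') (hRR : R' < R)
    (hcore : CoreR R' κ) {K : Set E3} (hK : IsCompact K) (hc : Convex ℝ K) (hw : Width1 K)
    (hno : ¬ ∃ x, K ⊆ closedBall x R) :
    ENNReal.ofReal Helper96.MEI.VMe ≤ volume K ∧
      (volume K = ENNReal.ofReal Helper96.MEI.VMe ↔
        ∃ a : Fin 4 → E3, (∀ i j, i ≠ j → dist (a i) (a j) = 1) ∧
        ∃ c : Fin 3 → Bool, K = Helper96.MEI.MB a c) := by
  have h0 : (0 : ℝ) < R' := by linarith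
  obtain ⟨h1, h2⟩ := reduce_loc (V := Helper96.MEI.VMe) hκ h0 hRR (by
    intro f hf hp hnf
    have hKc : IsCompact (Helper37.FX.Bd f) := Helper37.FX.Bd_compact hf
    have hcv : Convex ℝ (Helper37.FX.Bd f) := Helper37.FX.Bd_convex f
    have hw1 : Width1 (Helper37.FX.Bd f) := width_Bd hf
    have hfin : volume (Helper37.FX.Bd f) ≠ ⊤ := hKc.measure_lt_top.ne
    have hno1 : ¬ ∃ x0, Helper37.FX.Bd f ⊆ closedBall x0 0.6026 := by
      rintro ⟨x0, hx0⟩
      exact hnf ⟨x0, hx0.trans (closedBall_subset_closedBall h60)⟩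
    obtain ⟨b, c, hN⟩ := exists_near hKc hw1 hno1
    obtain ⟨σ, hσ, hpm⟩ := pm_exists hf hp
    obtain ⟨S, hS⟩ := viol_exists hKc hw1.nonempty b
    have hcr := hcore _ σ hσ b c ⟨hpm, hcv, hw1, hno1, hN⟩ hnf S hS
    obtain ⟨i0, -, hi0⟩ := Finset.exists_max_image Finset.univ S ⟨0, Finset.mem_univ _⟩
    refine ⟨b, hN.reg, S i0, hS.nn i0, ?_, ?_⟩
    · intro i q hq
      have h7 := hS.le i q hq
      have h8 := hi0 i (Finset.mem_univ _)
      have h9 : dist q (b i) ^ 2 - 1 = Qv b i q := by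
        rw [dist_eq_norm]; rfl
      rw [h9]
      linarith
    · show ENNReal.ofReal (Helper96.MEI.VMe + κ * S i0) ≤ volume (Helper37.FX.Bd f)
      rw [← ENNReal.ofReal_toReal hfin]
      apply ENNReal.ofReal_le_ofReal
      exact hcr i0) hK hc hw hno
  exact Helper96.MEI.top_of_quant hκ hK hc hw h1 h2

end Helper82.M2
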