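import Pool.Agent.Helper13.PLM.Placement

/-!
# The placement theorem for bodies of volume at most `0.41995`

`V_M < 0.41995`; the version with a margin is needed for the case of equality.
-/

set_option autoImplicit false

namespace Helper82.M2

open Set Metric Finset MeasureTheory Helper80.CW Helper82.CW Helper14.CW Pool.Agent.Helper73.PL
open scoped RealInnerProductSpace

/-- four points with small edge defects, volume at most `0.41995` -/
theorem near_sum' {K : Set E3} (hK : IsCompact K) (hc : Convex ℝ K)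
    (hw : Width1 K) (hvol : volume K ≤ ENNReal.ofReal 0.41995) :
    ∃ c : Fin 4 → E3, (∀ i, c i ∈ K) ∧
      ∑ i, ∑ j, (if i = j then 0 else 1 - ‖c i - c j‖ ^ 2) ≤ 0.42 := by
  have hno : ¬ ∃ x0, K ⊆ Metric.closedBall x0 0.6026 := by
    rintro ⟨x0, hx0⟩
    have h2 := volume_circum hK hc hw (by norm_num) hx0
    have h3 := (h2.trans hvol)
    rw [ENNReal.ofReal_le_ofReal_iff'] at h3
    have h4 := thr
    rcases h3 with h3 | h3 <;> linarith
  obtain ⟨p, hp, l, hl0, hl1, hl⟩ := jung_four K (diam_le hK hw) (ρ := 0.6026) (by norm_num)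
    (by norm_num) hno
  refine ⟨p, hp, ?_⟩
  by_contra hcon
  push Not at hcon
  have h1 := simplex_total l hl0 hl1 (fun i j => 1 - ‖p i - p j‖ ^ 2) (fun i j _ => by
    have h1 := diam_le hK hw _ (hp i) _ (hp j)
    rw [dist_eq_norm] at h1
    have h2 := norm_nonneg (p i - p j)
    show (0 : ℝ) ≤ 1 - ‖p i - p j‖ ^ 2
    nlinarith) (X := 0.21) (by norm_num) (by norm_num)
    (by
      refine le_trans (by norm_num) hcon.le)
  have h2 : ∑ i, ∑ j, l i * l j * (if i = j then 0 else 1 - (1 - ‖p i - p j‖ ^ 2)) =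
      ∑ i, ∑ j, l i * l j * ‖p i - p j‖ ^ 2 := by
    refine Finset.sum_congr rfl (fun i _ => Finset.sum_congr rfl (fun j _ => ?_))
    by_cases h : i = j
    · simp [h]
    · rw [if_neg h]; ring
  rw [h2] at h1
  have h3 : (1 : ℝ) / 4 + 1 / (4 * (2 + 0.21)) ≤ 0.6026 ^ 2 := by norm_num
  linarith

/-- **Placement theorem** with a margin in the volume. -/
theorem placement' {K : Set E3} (hK : IsCompact K) (hconv : Convex ℝ K) (hw : Width1 K)
    (hvol : volume K ≤ ENNReal.ofReal 0.41995) :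
    ∃ b c : Fin 4 → E3, (∀ i j, i ≠ j → dist (b i) (b j) = 1) ∧ (∀ i, c i ∈ K) ∧
      (∀ i j, i ≠ j → supp K (b i - b j) = ⟪b i, b i - b j⟫) ∧
      (∀ x ∈ K, ∀ i j, i ≠ j → ⟪x, b i - b j⟫ ≤ ⟪b i, b i - b j⟫) ∧
      (∀ i j, 0 ≤ ⟪b i - c i, b i - b j⟫) ∧
      ∑ i, ∑ j, ⟪b i - c i, b i - b j⟫ ≤ 0.1535 := by
  obtain ⟨c, hcK, hsum⟩ := near_sum' hK hconv hw hvol
  obtain ⟨a, u, s, ho, hd, hc, hs, hs3⟩ := Helper33.MEI.frame c (fun i j => by
    rw [← dist_eq_norm]
    exact diam_le hK hw _ (hcK i) _ (hcK j)) hsum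
  have hG := Helper13.PLM.gram_of_inner ho hd
  obtain ⟨b, h1, h2, h3⟩ := Helper13.PLM.place_frame hK hw hG hcK u hc (fun k => (hs k).2) hs3
  have h4 : ∀ x ∈ K, ∀ i j, i ≠ j → ⟪x, b i - b j⟫ ≤ ⟪b i, b i - b j⟫ := by
    intro x hx i j hij
    have := supp_ge hK hw.nonempty (b i - b j) hx
    rwa [h2 i j hij] at this
  refine ⟨b, c, h1, hcK, h2, h4, ?_, h3⟩
  intro i j
  by_cases hij : i = j
  · subst hij; simp
  · rw [inner_sub_left]
    have := h4 _ (hcK i) i j hij
    linarith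

end Helper82.M2
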