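import Pool.Agent.Helper31.SR.FinA

/-!
# Project MEI (M2): the text of the hand-in `CircumradiusWindow` from a window theorem
-/

set_option autoImplicit false

namespace Helper82.M2

open MeasureTheory Metric

theorem window_form {R : ℝ} (hW : Pool.Agent.Helper31.SR.MilG.Win R)
    (K : Set (EuclideanSpace ℝ (Fin 3))) (hcompact : IsCompact K)
    (hconvex : Convex ℝ K)
    (hwidth : ∀ u : EuclideanSpace ℝ (Fin 3), ‖u‖ = 1 →
      sSup ((fun x => inner ℝ x u) '' K) - sInf ((fun x => inner ℝ x u) '' K) = 1)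
    (hcircum : (∃ x, K ⊆ closedBall x 0.6042) ∨ ¬ ∃ x, K ⊆ closedBall x R) :
    ENNReal.ofReal (Real.pi * (2 / 3 - Real.sqrt 3 / 4 * Real.arccos (1 / 3))) ≤ volume K ∧
      (volume K = ENNReal.ofReal (Real.pi * (2 / 3 - Real.sqrt 3 / 4 * Real.arccos (1 / 3))) ↔
        ∃ a : Fin 4 → EuclideanSpace ℝ (Fin 3), (∀ i j, i ≠ j → dist (a i) (a j) = 1) ∧
          ∃ c : Fin 3 → Bool, K = Helper96.MEI.MB a c) := by
  rcases hcircum with ⟨x, hx⟩ | h
  · obtain ⟨h1, h2⟩ := concl_far2 hcompact hconvex hwidth hx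
    exact ⟨h1.le, h2⟩
  · exact hW K hcompact hconvex hwidth h

end Helper82.M2
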